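import Pool.Agent.H608R4.KM.Stm

/-! M5: the cross terms over few pairs. -/

set_option autoImplicit false

namespace Pool.Agent.TH938.KM

open Pool.Agent.H608R4.KM Finset

theorem t_M5 : S_M5 := by
  intro n f s hf hsum
  have hQ : 0 ≤ Q s := by
    unfold Q
    positivity
  have hcs := Finset.sum_mul_sq_le_sq_mul_sq (univ : Finset (Fin n × Fin n))
    (fun p => f p.1 p.2) (fun p => |s p.1 * s p.2|)
  have e1 : ∑ p : Fin n × Fin n, f p.1 p.2 * |s p.1 * s p.2| = ∑ i, ∑ j, f i j * |s i * s j| := by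
    rw [Fintype.sum_prod_type]
  have e2 : ∑ p : Fin n × Fin n, f p.1 p.2 ^ 2 = ∑ i, ∑ j, f i j := by
    rw [Fintype.sum_prod_type]
    refine sum_congr rfl fun i _ => sum_congr rfl fun j _ => ?_
    rcases hf i j with h | h <;> rw [h] <;> norm_num
  have e3 : ∑ p : Fin n × Fin n, |s p.1 * s p.2| ^ 2 = Q s ^ 2 := by
    rw [Fintype.sum_prod_type]
    unfold Q
    rw [sq, Finset.sum_mul_sum]
    refine sum_congr rfl fun i _ => sum_congr rfl fun j _ => ?_
    rw [sq_abs, mul_pow]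
  rw [e1, e2, e3] at hcs
  refine abs_le_of_sq_le_sq' ?_ (by positivity) |>.2
  have h1 : (∑ i, ∑ j, f i j) * Q s ^ 2 ≤ 6 / 10 ^ 6 * (n : ℝ) ^ 2 * Q s ^ 2 :=
    mul_le_mul_of_nonneg_right hsum (sq_nonneg _)
  have h2 : 0 ≤ (n : ℝ) ^ 2 * Q s ^ 2 := by positivity
  nlinarith [hcs, h1, h2]

end Pool.Agent.TH938.KM
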